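import Mathlib

/-!
# The least size of a polyomino in which every row and every column is disconnected is 21
-/

namespace Pool.Agent.Results.MP_ae2f9f_co.LeastSize

/-- The cells `[a,a+1] x [b,b+1]` and `[c,c+1] x [d,d+1]`, named by their lower left corners
`u = (a,b)` and `v = (c,d)`, share a side. -/
def Adj (u v : ℤ × ℤ) : Prop :=
  (u.1 = v.1 ∧ (u.2 = v.2 + 1 ∨ v.2 = u.2 + 1)) ∨
    (u.2 = v.2 ∧ (u.1 = v.1 + 1 ∨ v.1 = u.1 + 1))

/-- `P` is a polyomino: a nonempty finite set of cells, connected under edge-adjacency. -/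
def IsPolyomino (P : Finset (ℤ × ℤ)) : Prop :=
  P.Nonempty ∧ ∀ u ∈ P, ∀ v ∈ P,
    Relation.ReflTransGen (fun x y => x ∈ P ∧ y ∈ P ∧ Adj x y) u v

/-- Property (S): no nonempty row and no nonempty column of `P` is a single strip, that is,
an interval of consecutive cells. -/
def PropS (P : Finset (ℤ × ℤ)) : Prop :=
  (∀ b : ℤ, (∃ a : ℤ, (a, b) ∈ P) → ¬ Set.OrdConnected {a : ℤ | (a, b) ∈ P}) ∧
    (∀ a : ℤ, (∃ b : ℤ, (a, b) ∈ P) → ¬ Set.OrdConnected {b : ℤ | (a, b) ∈ P})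

/-! ### Lower bound -/

lemma not_ord {S : Set ℤ} (h : ¬ S.OrdConnected) :
    ∃ a₁ a₂ a₃ : ℤ, a₁ < a₂ ∧ a₂ < a₃ ∧ a₁ ∈ S ∧ a₂ ∉ S ∧ a₃ ∈ S := by
  rw [Set.ordConnected_def] at h
  push Not at h
  obtain ⟨x, hx, y, hy, hxy⟩ := h
  rw [Set.not_subset] at hxy
  obtain ⟨z, hz, hzS⟩ := hxy
  refine ⟨x, z, y, ?_, ?_, hx, hzS, hy⟩
  · rcases lt_or_eq_of_le hz.1 with h | h
    · exact h
    · exact absurd (h ▸ hx) hzS
  · rcases lt_or_eq_of_le hz.2 with h | h
    · exact h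
    · exact absurd (h ▸ hy) hzS

lemma adj_swap {u v : ℤ × ℤ} (h : Adj u v) : Adj u.swap v.swap := by
  unfold Adj at *
  simp only [Prod.fst_swap, Prod.snd_swap]
  tauto

lemma mem_swap {P : Finset (ℤ × ℤ)} {u : ℤ × ℤ} : u ∈ P.image Prod.swap ↔ u.swap ∈ P := by
  rw [Finset.mem_image]
  constructor
  · rintro ⟨v, hv, rfl⟩
    simpa using hv
  · intro h
    exact ⟨u.swap, h, by simp⟩

lemma mem_swap' {P : Finset (ℤ × ℤ)} {a b : ℤ} : (a, b) ∈ P.image Prod.swap ↔ (b, a) ∈ P :=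
  mem_swap

lemma swap_poly {P : Finset (ℤ × ℤ)} (h : IsPolyomino P) : IsPolyomino (P.image Prod.swap) := by
  refine ⟨h.1.image _, ?_⟩
  intro u hu v hv
  rw [mem_swap] at hu hv
  have h1 := h.2 _ hu _ hv
  have key : ∀ w : ℤ × ℤ, Relation.ReflTransGen (fun x y => x ∈ P ∧ y ∈ P ∧ Adj x y) u.swap w →
      Relation.ReflTransGen (fun x y => x ∈ P.image Prod.swap ∧ y ∈ P.image Prod.swap ∧ Adj x y)
        u w.swap := by
    intro w hw
    induction hw with
    | refl => rw [Prod.swap_swap]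
    | tail _ h2 ih =>
      refine ih.tail ⟨?_, ?_, adj_swap h2.2.2⟩
      · rw [mem_swap, Prod.swap_swap]; exact h2.1
      · rw [mem_swap, Prod.swap_swap]; exact h2.2.1
  have h2 := key _ h1
  rwa [Prod.swap_swap] at h2

lemma swap_S {P : Finset (ℤ × ℤ)} (h : PropS P) : PropS (P.image Prod.swap) := by
  constructor
  · intro b hb
    have : {a : ℤ | (a, b) ∈ P.image Prod.swap} = {a : ℤ | (b, a) ∈ P} := by
      ext a; exact mem_swap'
    rw [this]
    obtain ⟨a, ha⟩ := hb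
    exact h.2 b ⟨a, mem_swap'.1 ha⟩
  · intro a ha
    have : {b : ℤ | (a, b) ∈ P.image Prod.swap} = {b : ℤ | (b, a) ∈ P} := by
      ext b; exact mem_swap'
    rw [this]
    obtain ⟨b, hb⟩ := ha
    exact h.1 a ⟨b, mem_swap'.1 hb⟩

/-- Row starts: at least two per nonempty row. -/
lemma rows_two {P : Finset (ℤ × ℤ)} (h : PropS P) :
    2 * (P.image Prod.snd).card ≤ (P.filter (fun u => (u.1 - 1, u.2) ∉ P)).card := by
  classical
  set B := P.filter (fun u => (u.1 - 1, u.2) ∉ P) with hB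
  have hmaps : ∀ u ∈ B, Prod.snd u ∈ P.image Prod.snd := by
    intro u hu
    exact Finset.mem_image_of_mem _ (Finset.mem_filter.1 hu).1
  rw [Finset.card_eq_sum_card_fiberwise hmaps]
  have : ∀ b ∈ P.image Prod.snd, 2 ≤ (B.filter (fun u => u.2 = b)).card := by
    intro b hb
    rw [Finset.mem_image] at hb
    obtain ⟨⟨a, b'⟩, hab, hb'⟩ := hb
    simp only at hb'
    subst hb'
    obtain ⟨a₁, a₂, a₃, h12, h23, ha₁, ha₂, ha₃⟩ := not_ord (h.1 b' ⟨a, hab⟩)
    simp only [Set.mem_ofPred_eq] at ha₁ ha₂ ha₃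
    -- leftmost cell of the row
    obtain ⟨u, hu, humin⟩ := Finset.exists_min_image (P.filter (fun u => u.2 = b')) Prod.fst
      ⟨(a, b'), Finset.mem_filter.2 ⟨hab, rfl⟩⟩
    obtain ⟨v, hv, hvmin⟩ := Finset.exists_min_image
      (P.filter (fun u => u.2 = b' ∧ a₂ < u.1)) Prod.fst
      ⟨(a₃, b'), Finset.mem_filter.2 ⟨ha₃, rfl, h23⟩⟩
    rw [Finset.mem_filter] at hu hv
    obtain ⟨u1, u2⟩ := u
    obtain ⟨v1, v2⟩ := v
    obtain ⟨huP, hu2⟩ := hu
    obtain ⟨hvP, hv2, hv3⟩ := hv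
    simp only at hu2 hv2 hv3
    subst hu2
    subst hv2
    have huB : (u1, v2) ∈ B := by
      rw [hB, Finset.mem_filter]
      refine ⟨huP, ?_⟩
      intro hc
      have := humin _ (Finset.mem_filter.2 ⟨hc, rfl⟩)
      simp only at this
      omega
    have hvB : (v1, v2) ∈ B := by
      rw [hB, Finset.mem_filter]
      refine ⟨hvP, ?_⟩
      intro hc
      simp only at hc
      by_cases h3 : a₂ < v1 - 1
      · have := hvmin _ (Finset.mem_filter.2 ⟨hc, rfl, h3⟩)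
        simp only at this
        omega
      · have : v1 - 1 = a₂ := by omega
        rw [this] at hc
        exact ha₂ hc
    have hu1 : u1 ≤ a₁ := humin _ (Finset.mem_filter.2 ⟨ha₁, rfl⟩)
    have hne : (u1, v2) ≠ (v1, v2) := by
      intro hc
      rw [Prod.mk.injEq] at hc
      omega
    have hsub : ({(u1, v2), (v1, v2)} : Finset (ℤ × ℤ)) ⊆ B.filter (fun u => u.2 = v2) := by
      intro w hw
      rw [Finset.mem_insert, Finset.mem_singleton] at hw
      rcases hw with rfl | rfl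
      · exact Finset.mem_filter.2 ⟨huB, rfl⟩
      · exact Finset.mem_filter.2 ⟨hvB, rfl⟩
    calc 2 = ({(u1, v2), (v1, v2)} : Finset (ℤ × ℤ)).card := (Finset.card_pair hne).symm
      _ ≤ _ := Finset.card_le_card hsub
  calc 2 * (P.image Prod.snd).card = ∑ _b ∈ P.image Prod.snd, 2 := by
        rw [Finset.sum_const, smul_eq_mul, mul_comm]
    _ ≤ _ := Finset.sum_le_sum this

lemma cols_two {P : Finset (ℤ × ℤ)} (h : PropS P) :
    2 * (P.image Prod.fst).card ≤ (P.filter (fun u => (u.1, u.2 - 1) ∉ P)).card := by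
  classical
  have h1 := rows_two (swap_S h)
  have h2 : (P.image Prod.swap).image Prod.snd = P.image Prod.fst := by
    rw [Finset.image_image]; rfl
  have h3 : (P.image Prod.swap).filter (fun u => (u.1 - 1, u.2) ∉ P.image Prod.swap)
      = (P.filter (fun u => (u.1, u.2 - 1) ∉ P)).image Prod.swap := by
    ext ⟨a, b⟩
    rw [Finset.mem_filter, mem_swap', mem_swap', mem_swap', Finset.mem_filter]
  rw [h2, h3, Finset.card_image_of_injective _ Prod.swap_injective] at h1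
  exact h1

/-- The cell graph of `P`. -/
def G (P : Finset (ℤ × ℤ)) : SimpleGraph P where
  Adj u v := Adj u.1 v.1
  symm := ⟨by
    intro u v h
    unfold Adj at *
    tauto⟩
  loopless := ⟨by
    intro u h
    unfold Adj at h
    omega⟩

lemma G_conn {P : Finset (ℤ × ℤ)} (h : IsPolyomino P) : (G P).Connected := by
  have : Nonempty P := ⟨⟨h.1.choose, h.1.choose_spec⟩⟩
  rw [SimpleGraph.connected_iff]
  refine ⟨?_, this⟩
  intro u v
  have key : ∀ y : ℤ × ℤ, Relation.ReflTransGen (fun x y => x ∈ P ∧ y ∈ P ∧ Adj x y) u.1 y →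
      ∀ hy : y ∈ P, (G P).Reachable u ⟨y, hy⟩ := by
    intro y hy
    induction hy with
    | refl => intro hy; exact SimpleGraph.Reachable.refl _
    | tail h1 h2 ih =>
      intro hc
      have h3 := ih h2.1
      refine h3.trans (SimpleGraph.Adj.reachable ?_)
      exact h2.2.2
  exact key v.1 (h.2 u.1 u.2 v.1 v.2) v.2

lemma edge_bound {P : Finset (ℤ × ℤ)} (h : IsPolyomino P) :
    P.card ≤ (P.filter (fun u => (u.1 - 1, u.2) ∈ P)).card +
      (P.filter (fun u => (u.1, u.2 - 1) ∈ P)).card + 1 := by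
  classical
  have h1 := (G_conn h).card_vert_le_card_edgeSet_add_one
  set A := P.filter (fun u => (u.1 - 1, u.2) ∈ P) with hA
  set B := P.filter (fun u => (u.1, u.2 - 1) ∈ P) with hB
  let f : A ⊕ B → (G P).edgeSet := fun x => match x with
    | Sum.inl u => ⟨s(⟨u.1, (Finset.mem_filter.1 u.2).1⟩,
        ⟨(u.1.1 - 1, u.1.2), (Finset.mem_filter.1 u.2).2⟩), by
          rw [SimpleGraph.mem_edgeSet]
          show Adj _ _
          right
          exact ⟨rfl, Or.inl (by simp)⟩⟩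
    | Sum.inr u => ⟨s(⟨u.1, (Finset.mem_filter.1 u.2).1⟩,
        ⟨(u.1.1, u.1.2 - 1), (Finset.mem_filter.1 u.2).2⟩), by
          rw [SimpleGraph.mem_edgeSet]
          show Adj _ _
          left
          exact ⟨rfl, Or.inl (by simp)⟩⟩
  have hf : Function.Surjective f := by
    rintro ⟨e, he⟩
    induction e using Sym2.ind with
    | _ x y =>
      obtain ⟨⟨x1, x2⟩, hx⟩ := x
      obtain ⟨⟨y1, y2⟩, hy⟩ := y
      have hadj : Adj (x1, x2) (y1, y2) := (SimpleGraph.mem_edgeSet _).1 he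
      unfold Adj at hadj
      simp only at hadj
      rcases hadj with ⟨h1, h2 | h2⟩ | ⟨h1, h2 | h2⟩
      · subst h1
        have e1 : y2 = x2 - 1 := by omega
        subst e1
        exact ⟨Sum.inr ⟨(x1, x2), Finset.mem_filter.2 ⟨hx, hy⟩⟩, rfl⟩
      · subst h1
        have e1 : x2 = y2 - 1 := by omega
        subst e1
        refine ⟨Sum.inr ⟨(x1, y2), Finset.mem_filter.2 ⟨hy, hx⟩⟩, ?_⟩
        apply Subtype.ext
        exact Sym2.eq_swap
      · subst h1
        have e1 : y1 = x1 - 1 := by omega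
        subst e1
        exact ⟨Sum.inl ⟨(x1, x2), Finset.mem_filter.2 ⟨hx, hy⟩⟩, rfl⟩
      · subst h1
        have e1 : x1 = y1 - 1 := by omega
        subst e1
        refine ⟨Sum.inl ⟨(y1, x2), Finset.mem_filter.2 ⟨hy, hx⟩⟩, ?_⟩
        apply Subtype.ext
        exact Sym2.eq_swap
  have h2 : Nat.card (G P).edgeSet ≤ Nat.card (A ⊕ B) := Nat.card_le_card_of_surjective f hf
  have eA : Nat.card A = A.card := Nat.card_eq_finsetCard A
  have eB : Nat.card B = B.card := Nat.card_eq_finsetCard B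
  have eP : Nat.card P = P.card := Nat.card_eq_finsetCard P
  rw [Nat.card_sum, eA, eB] at h2
  rw [eP] at h1
  omega

lemma main_ineq {P : Finset (ℤ × ℤ)} (h : IsPolyomino P) (hS : PropS P) :
    2 * (P.image Prod.snd).card + 2 * (P.image Prod.fst).card ≤ P.card + 1 := by
  classical
  have h1 := rows_two hS
  have h2 := cols_two hS
  have h3 := edge_bound h
  have h4 := Finset.card_filter_add_card_filter_not (s := P) (fun u => (u.1 - 1, u.2) ∈ P)
  have h5 := Finset.card_filter_add_card_filter_not (s := P) (fun u => (u.1, u.2 - 1) ∈ P)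
  omega

lemma crossing {P : Finset (ℤ × ℤ)} (h : IsPolyomino P) {x y : ℤ × ℤ} (hx : x ∈ P) (hy : y ∈ P)
    {c : ℤ} (hxc : x.2 ≤ c) (hyc : c < y.2) : ∃ a : ℤ, (a, c) ∈ P ∧ (a, c + 1) ∈ P := by
  have h1 := h.2 x hx y hy
  induction h1 using Relation.ReflTransGen.head_induction_on with
  | refl => omega
  | @head u v huv hvy ih =>
    by_cases hv : v.2 ≤ c
    · exact ih huv.2.1 hv
    · obtain ⟨hu, hv', hadj⟩ := huv
      obtain ⟨u1, u2⟩ := u
      obtain ⟨v1, v2⟩ := v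
      unfold Adj at hadj
      simp only at hadj hv hxc
      rcases hadj with ⟨h1, h2 | h2⟩ | ⟨h1, h2 | h2⟩
      · omega
      · have e1 : u2 = c := by omega
        have e2 : v2 = c + 1 := by omega
        subst e1
        subst e2
        subst h1
        exact ⟨u1, hu, hv'⟩
      · omega
      · omega

/-- The heights: the rows that occur fill an interval of length at least five. -/
lemma height {P : Finset (ℤ × ℤ)} (h : IsPolyomino P) (hS : PropS P) :
    ∃ m M : ℤ, m + 4 ≤ M ∧ P.image Prod.snd = Finset.Icc m M := by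
  classical
  obtain ⟨x, hx, hxmin⟩ := Finset.exists_min_image P Prod.snd h.1
  obtain ⟨y, hy, hymax⟩ := Finset.exists_max_image P Prod.snd h.1
  have hcol : ∀ a b : ℤ, (a, b) ∈ P → ∃ b₁ b₂ b₃ : ℤ, b₁ < b₂ ∧ b₂ < b₃ ∧ (a, b₁) ∈ P ∧
      (a, b₂) ∉ P ∧ (a, b₃) ∈ P := fun a b hab => not_ord (hS.2 a ⟨b, hab⟩)
  have h2 : x.2 + 2 ≤ y.2 := by
    obtain ⟨b₁, b₂, b₃, h12, h23, k1, k2, k3⟩ := hcol x.1 x.2 hx
    have := hxmin _ k1
    have := hymax _ k3
    simp only at *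
    omega
  refine ⟨x.2, y.2, ?_, ?_⟩
  · by_contra hlt
    obtain ⟨a, ha1, ha2⟩ := crossing h hx hy (c := x.2 + 1) (by omega) (by omega)
    obtain ⟨b₁, b₂, b₃, h12, h23, k1, k2, k3⟩ := hcol _ _ ha1
    have e1 := hxmin _ k1
    have e3 := hymax _ k3
    simp only at e1 e3
    have : b₂ = x.2 + 1 ∨ b₂ = x.2 + 1 + 1 := by omega
    rcases this with hb | hb
    · rw [hb] at k2
      exact k2 ha1
    · rw [hb] at k2
      exact k2 ha2
  · ext b
    rw [Finset.mem_image, Finset.mem_Icc]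
    constructor
    · rintro ⟨u, hu, rfl⟩
      exact ⟨hxmin _ hu, hymax _ hu⟩
    · rintro ⟨hb1, hb2⟩
      rcases lt_or_eq_of_le hb2 with h3 | h3
      · obtain ⟨a, ha1, ha2⟩ := crossing h hx hy hb1 h3
        exact ⟨_, ha1, rfl⟩
      · exact ⟨y, hy, h3.symm⟩

lemma lower {P : Finset (ℤ × ℤ)} (h : IsPolyomino P) (hS : PropS P) : 21 ≤ P.card := by
  classical
  by_contra hlt
  obtain ⟨m, M, hmM, hrows⟩ := height h hS
  obtain ⟨m', M', hmM', hcols'⟩ := height (swap_poly h) (swap_S hS)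
  have hcols : P.image Prod.fst = Finset.Icc m' M' := by
    rw [← hcols', Finset.image_image]; rfl
  have h1 := main_ineq h hS
  rw [hrows, hcols, Int.card_Icc, Int.card_Icc] at h1
  have hM : M = m + 4 := by omega
  have hM' : M' = m' + 4 := by omega
  subst hM
  subst hM'
  have hn : 19 ≤ P.card := by omega
  have hbox : P ⊆ Finset.Icc m' (m' + 4) ×ˢ Finset.Icc m (m + 4) := by
    intro u hu
    rw [Finset.mem_product]
    refine ⟨?_, ?_⟩
    · rw [← hcols]; exact Finset.mem_image_of_mem _ hu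
    · rw [← hrows]; exact Finset.mem_image_of_mem _ hu
  have hb1 : ∀ a b : ℤ, (a, b) ∈ P → m' ≤ a ∧ a ≤ m' + 4 ∧ m ≤ b ∧ b ≤ m + 4 := by
    intro a b hab
    have := hbox hab
    rw [Finset.mem_product, Finset.mem_Icc, Finset.mem_Icc] at this
    exact ⟨this.1.1, this.1.2, this.2.1, this.2.2⟩
  -- a missing interior cell in every row
  have hrow : ∀ b : ℤ, ∃ a : ℤ, b ∈ Finset.Icc m (m + 4) → m' < a ∧ a < m' + 4 ∧ (a, b) ∉ P := by
    intro b
    by_cases hb : b ∈ Finset.Icc m (m + 4)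
    · have hb' := hb
      rw [← hrows, Finset.mem_image] at hb'
      obtain ⟨⟨a, b'⟩, hab, rfl⟩ := hb'
      obtain ⟨a₁, a₂, a₃, h12, h23, k1, k2, k3⟩ := not_ord (hS.1 b' ⟨a, hab⟩)
      simp only [Set.mem_ofPred_eq] at k1 k2 k3
      have e1 := hb1 _ _ k1
      have e3 := hb1 _ _ k3
      exact ⟨a₂, fun _ => ⟨by omega, by omega, k2⟩⟩
    · exact ⟨0, fun h => absurd h hb⟩
  choose A hA using hrow
  have hcol : ∀ a ∈ Finset.Icc m' (m' + 4), ∃ b : ℤ, m < b ∧ b < m + 4 ∧ (a, b) ∉ P := by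
    intro a ha
    have ha' := ha
    rw [← hcols, Finset.mem_image] at ha'
    obtain ⟨⟨a', b⟩, hab, rfl⟩ := ha'
    obtain ⟨b₁, b₂, b₃, h12, h23, k1, k2, k3⟩ := not_ord (hS.2 a' ⟨b, hab⟩)
    simp only [Set.mem_ofPred_eq] at k1 k2 k3
    have e1 := hb1 _ _ k1
    have e3 := hb1 _ _ k3
    exact ⟨b₂, by omega, by omega, k2⟩
  obtain ⟨b0, hb0, hb0', hb0P⟩ := hcol m' (by rw [Finset.mem_Icc]; omega)
  obtain ⟨b4, hb4, hb4', hb4P⟩ := hcol (m' + 4) (by rw [Finset.mem_Icc]; omega)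
  set Q1 := (Finset.Icc m (m + 4)).image (fun b => (A b, b)) with hQ1
  have hQ1c : Q1.card = 5 := by
    rw [hQ1, Finset.card_image_of_injective _ (fun x y hxy => (Prod.mk.inj hxy).2), Int.card_Icc]
    omega
  set Q2 : Finset (ℤ × ℤ) := {(m', b0), (m' + 4, b4)} with hQ2
  have hQ2c : Q2.card = 2 := Finset.card_pair (by
    intro hc
    rw [Prod.mk.injEq] at hc
    omega)
  have hdisj : Disjoint Q1 Q2 := by
    rw [Finset.disjoint_left]
    intro u hu1 hu2
    rw [hQ1, Finset.mem_image] at hu1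
    obtain ⟨b, hb, rfl⟩ := hu1
    have := hA b hb
    rw [hQ2, Finset.mem_insert, Finset.mem_singleton, Prod.mk.injEq, Prod.mk.injEq] at hu2
    omega
  have hsub : Q1 ∪ Q2 ⊆ (Finset.Icc m' (m' + 4) ×ˢ Finset.Icc m (m + 4)) \ P := by
    intro u hu
    rw [Finset.mem_union] at hu
    rw [Finset.mem_sdiff, Finset.mem_product, Finset.mem_Icc, Finset.mem_Icc]
    rcases hu with hu | hu
    · rw [hQ1, Finset.mem_image] at hu
      obtain ⟨b, hb, rfl⟩ := hu
      have h3 := hA b hb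
      rw [Finset.mem_Icc] at hb
      exact ⟨⟨⟨by simp only; omega, by simp only; omega⟩, hb⟩, h3.2.2⟩
    · rw [hQ2, Finset.mem_insert, Finset.mem_singleton] at hu
      rcases hu with rfl | rfl
      · exact ⟨⟨⟨by simp, by simp⟩, by simp only; omega, by simp only; omega⟩, hb0P⟩
      · exact ⟨⟨⟨by simp, by simp⟩, by simp only; omega, by simp only; omega⟩, hb4P⟩
  have hc1 := Finset.card_le_card hsub
  rw [Finset.card_union_of_disjoint hdisj, hQ1c, hQ2c, Finset.card_sdiff_of_subset hbox,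
    Finset.card_product, Int.card_Icc, Int.card_Icc] at hc1
  have e1 : (m' + 4 + 1 - m').toNat = 5 := by omega
  have e2 : (m + 4 + 1 - m).toNat = 5 := by omega
  rw [e1, e2] at hc1
  omega

/-! ### The example with 21 cells -/

/-- The example. -/
def P0 : Finset (ℤ × ℤ) :=
  {(0, 0), (1, 0), (2, 0), (4, 0), (0, 1), (2, 1), (3, 1), (4, 1), (5, 1), (0, 2), (1, 2), (4, 2),
    (1, 3), (2, 3), (3, 3), (5, 3), (0, 4), (1, 4), (3, 4), (4, 4), (5, 4)}

/-- A walk through all cells of the example. -/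
def W0 : List (ℤ × ℤ) :=
  [(0, 0), (1, 0), (2, 0), (2, 1), (3, 1), (4, 1), (5, 1), (4, 1), (4, 2), (4, 1), (4, 0), (4, 1),
    (3, 1), (2, 1), (2, 0), (1, 0), (0, 0), (0, 1), (0, 2), (1, 2), (1, 3), (2, 3), (3, 3), (3, 4),
    (4, 4), (5, 4), (5, 3), (5, 4), (4, 4), (3, 4), (3, 3), (2, 3), (1, 3), (1, 4), (0, 4)]

instance (u v : ℤ × ℤ) : Decidable (Adj u v) := by unfold Adj; infer_instance

lemma walk_reach {P : Finset (ℤ × ℤ)} : ∀ (l : List (ℤ × ℤ)) (u : ℤ × ℤ),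
    List.IsChain (fun x y => x ∈ P ∧ y ∈ P ∧ Adj x y) (u :: l) → ∀ v ∈ (u :: l),
      Relation.ReflTransGen (fun x y => x ∈ P ∧ y ∈ P ∧ Adj x y) u v := by
  intro l
  induction l with
  | nil =>
    intro u _ v hv
    rw [List.mem_singleton] at hv
    rw [hv]
  | cons w l ih =>
    intro u hch v hv
    rw [List.isChain_cons_cons] at hch
    rw [List.mem_cons] at hv
    rcases hv with rfl | hv
    · exact Relation.ReflTransGen.refl
    · exact Relation.ReflTransGen.head hch.1 (ih w hch.2 v hv)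

lemma rel_symm {P : Finset (ℤ × ℤ)} {u v : ℤ × ℤ}
    (h : Relation.ReflTransGen (fun x y => x ∈ P ∧ y ∈ P ∧ Adj x y) u v) :
    Relation.ReflTransGen (fun x y => x ∈ P ∧ y ∈ P ∧ Adj x y) v u := by
  induction h with
  | refl => exact Relation.ReflTransGen.refl
  | tail _ h2 ih =>
    refine Relation.ReflTransGen.head ⟨h2.2.1, h2.1, ?_⟩ ih
    have := h2.2.2
    unfold Adj at *
    tauto

lemma P0_poly : IsPolyomino P0 := by
  refine ⟨⟨(0, 0), by decide⟩, ?_⟩
  have h0 : ∀ v ∈ W0, Relation.ReflTransGen (fun x y => x ∈ P0 ∧ y ∈ P0 ∧ Adj x y) (0, 0) v :=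
    walk_reach _ _ (by decide)
  have h1 : ∀ v ∈ P0, v ∈ W0 := by decide
  intro u hu v hv
  exact (rel_symm (h0 u (h1 u hu))).trans (h0 v (h1 v hv))

/-- Witnesses for the rows. -/
def wr : ℤ → ℤ × ℤ × ℤ := fun b =>
  if b = 0 then (2, 3, 4) else if b = 1 then (0, 1, 2) else if b = 2 then (1, 2, 4)
  else if b = 3 then (3, 4, 5) else (1, 2, 3)

/-- Witnesses for the columns. -/
def wc : ℤ → ℤ × ℤ × ℤ := fun a =>
  if a = 0 then (2, 3, 4) else if a = 1 then (0, 1, 2) else if a = 2 then (1, 2, 3)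
  else if a = 3 then (1, 2, 3) else if a = 4 then (2, 3, 4) else (1, 2, 3)

lemma not_ord' {S : Set ℤ} {a₁ a₂ a₃ : ℤ} (h12 : a₁ < a₂) (h23 : a₂ < a₃) (h1 : a₁ ∈ S)
    (h2 : a₂ ∉ S) (h3 : a₃ ∈ S) : ¬ S.OrdConnected := by
  intro h
  exact h2 (h.out h1 h3 ⟨h12.le, h23.le⟩)

lemma P0_S : PropS P0 := by
  have hr : ∀ u ∈ P0, (wr u.2).1 < (wr u.2).2.1 ∧ (wr u.2).2.1 < (wr u.2).2.2 ∧
      ((wr u.2).1, u.2) ∈ P0 ∧ ((wr u.2).2.1, u.2) ∉ P0 ∧ ((wr u.2).2.2, u.2) ∈ P0 := by decide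
  have hc : ∀ u ∈ P0, (wc u.1).1 < (wc u.1).2.1 ∧ (wc u.1).2.1 < (wc u.1).2.2 ∧
      (u.1, (wc u.1).1) ∈ P0 ∧ (u.1, (wc u.1).2.1) ∉ P0 ∧ (u.1, (wc u.1).2.2) ∈ P0 := by decide
  constructor
  · rintro b ⟨a, hab⟩
    obtain ⟨h1, h2, h3, h4, h5⟩ := hr _ hab
    exact not_ord' h1 h2 h3 h4 h5
  · rintro a ⟨b, hab⟩
    obtain ⟨h1, h2, h3, h4, h5⟩ := hc _ hab
    exact not_ord' h1 h2 h3 h4 h5

/-- The least number of cells of a polyomino with property (S) is `21`. -/
theorem result :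
    IsLeast {n : ℕ | ∃ P : Finset (ℤ × ℤ), IsPolyomino P ∧ PropS P ∧ P.card = n} 21 := by
  constructor
  · exact ⟨P0, P0_poly, P0_S, by decide⟩
  · rintro n ⟨P, h1, h2, rfl⟩
    exact lower h1 h2

end Pool.Agent.Results.MP_ae2f9f_co.LeastSize
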